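import Mathlib

/-!
# The 3/3-power of a graph: definitions

`sub3 G` is the 3-subdivision `G^{1/3}`: the vertices are the vertices of `G` and one vertex
for each dart `(u,v)` of `G`; the edge `uv` is replaced by the path `u, (u,v), (v,u), v`.
`power H m` is the `m`-th power of the graph `H`.
-/

namespace Pool.R300.TT

open SimpleGraph

/-- The 3-subdivision of `G`: every edge `uv` is replaced by the path `u, (u,v), (v,u), v`
of length three; the new vertices are the darts `(u,v)`, `(v,u)`. -/
def sub3 {V : Type*} (G : SimpleGraph V) : SimpleGraph (V ⊕ G.Dart) where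
  Adj := fun a b => match a, b with
    | Sum.inl v, Sum.inr d => d.fst = v
    | Sum.inr d, Sum.inl v => d.fst = v
    | Sum.inr d, Sum.inr e => e = d.symm
    | Sum.inl _, Sum.inl _ => False
  symm := ⟨by
    rintro (a | a) (b | b) h
    · exact h
    · exact h
    · exact h
    · simp only at h ⊢
      rw [h]; simp⟩
  loopless := ⟨by
    rintro (a | a) h
    · exact h
    · simp only at h
      exact a.symm_ne h.symm⟩

/-- The `m`-th power of `H`: two distinct vertices are adjacent when their distance in `H`
(in `ℕ∞`, infinite when they are in different components) is at most `m`. -/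
def power {W : Type*} (H : SimpleGraph W) (m : ℕ) : SimpleGraph W where
  Adj := fun a b => a ≠ b ∧ H.edist a b ≤ (m : ℕ∞)
  symm := ⟨fun a b h => ⟨h.1.symm, by rw [SimpleGraph.edist_comm]; exact h.2⟩⟩
  loopless := ⟨fun a h => h.1 rfl⟩

/-- `i`-arcs of the arc labelling `ι`. -/
def Arc {V : Type*} {Δ : ℕ} (G : SimpleGraph V) (ι : V → V → Fin Δ) (i : Fin Δ) (u v : V) : Prop :=
  G.Adj u v ∧ ι u v = i

/-- A long cycle: a bi-infinite sequence following `i`-arcs that never turns back. -/
def LCyc {V : Type*} {Δ : ℕ} (G : SimpleGraph V) (ι : V → V → Fin Δ) (i : Fin Δ) (c : ℤ → V) :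
    Prop :=
  (∀ n, Arc G ι i (c n) (c (n + 1))) ∧ ∀ n, c (n + 2) ≠ c n

end Pool.R300.TT
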