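import Mathlib

/-!
# A vertex colouring from a maximum independent set and Hall's theorem
-/

namespace Pool.R300.TT

namespace PhaseA

open Finset

/-- degenerate colouring -/
lemma degen {V : Type*} [DecidableEq V] (H : V → V → Prop) [DecidableRel H]
    (hsym : ∀ a b, H a b → H b a) (hirr : ∀ a, ¬ H a a)
    (Δ : ℕ) (hΔ : 0 < Δ) (U : Finset V)
    (h : ∀ W ⊆ U, W.Nonempty → ∃ a ∈ W, (W.filter (H a)).card < Δ) :
    ∃ g : V → Fin Δ, ∀ a ∈ U, ∀ b ∈ U, H a b → g a ≠ g b := by
  have key : ∀ n : ℕ, ∀ W ⊆ U, W.card = n →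
      ∃ g : V → Fin Δ, ∀ a ∈ W, ∀ b ∈ W, H a b → g a ≠ g b := by
    intro n
    induction n with
    | zero =>
      intro W _ hW
      rw [card_eq_zero] at hW
      subst hW
      exact ⟨fun _ => ⟨0, hΔ⟩, fun a ha => absurd ha (notMem_empty a)⟩
    | succ n ih =>
      intro W hWU hW
      obtain ⟨a, ha, hcard⟩ := h W hWU (card_pos.1 (by omega))
      obtain ⟨g', hg'⟩ := ih (W.erase a) ((erase_subset _ _).trans hWU)
        (by rw [card_erase_of_mem ha]; omega)
      have : ∃ c : Fin Δ, c ∉ (W.filter (H a)).image g' := by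
        by_contra hcon
        push Not at hcon
        have h1 : (univ : Finset (Fin Δ)) ⊆ (W.filter (H a)).image g' := fun c _ => hcon c
        have h2 := card_le_card h1
        rw [card_univ, Fintype.card_fin] at h2
        have h3 := card_image_le (s := W.filter (H a)) (f := g')
        omega
      obtain ⟨c, hc⟩ := this
      have hc' : ∀ b ∈ W, H a b → g' b ≠ c := by
        intro b hb hab h'
        exact hc (mem_image.2 ⟨b, mem_filter.2 ⟨hb, hab⟩, h'⟩)
      refine ⟨Function.update g' a c, ?_⟩
      intro x hx y hy hxy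
      by_cases hxa : x = a
      · subst hxa
        have hyx : y ≠ x := fun e => hirr x (by rw [e] at hxy; exact hxy)
        rw [Function.update_self, Function.update_of_ne hyx]
        exact (hc' y hy hxy).symm
      · by_cases hya : y = a
        · subst hya
          rw [Function.update_self, Function.update_of_ne hxa]
          exact hc' x hx (hsym _ _ hxy)
        · rw [Function.update_of_ne hxa, Function.update_of_ne hya]
          exact hg' x (mem_erase.2 ⟨hxa, hx⟩) y (mem_erase.2 ⟨hya, hy⟩) hxy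
  exact key U.card U (Subset.refl _) rfl

end PhaseA

open Finset in
theorem exists_f {V : Type*} [Fintype V] [DecidableEq V] (G : SimpleGraph V) [DecidableRel G.Adj]
    (Δ : ℕ) (h3 : 3 ≤ Δ) (hΔ : ∀ v, G.degree v ≤ Δ) :
    ∃ f : V → Option (Fin Δ), (∀ u v, G.Adj u v → f u ≠ f v) ∧
      (∀ u, f u ≠ none → ∃ x, G.Adj u x ∧ f x = none) ∧
      (∀ u, ∃ φ : V → Fin Δ, (∀ v w, G.Adj u v → G.Adj u w → φ v = φ w → v = w) ∧
        ∀ v, G.Adj u v → f v ≠ some (φ v)) := by
  classical
  -- maximum independent set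
  let Ind : Finset V → Prop := fun S => ∀ a ∈ S, ∀ b ∈ S, ¬ G.Adj a b
  obtain ⟨X, hXmem, hXmax⟩ := Finset.exists_max_image (univ.filter Ind) Finset.card
    ⟨∅, by simp [Ind]⟩
  have hX : Ind X := (mem_filter.1 hXmem).2
  have hXmax' : ∀ S, Ind S → S.card ≤ X.card := fun S hS =>
    hXmax S (mem_filter.2 ⟨mem_univ _, hS⟩)
  -- exchange
  have hex : ∀ I : Finset V, Ind I → (∀ i ∈ I, i ∉ X) →
      I.card ≤ (X.filter (fun x => ∃ i ∈ I, G.Adj i x)).card := by
    intro I hI hIX
    set N := X.filter (fun x => ∃ i ∈ I, G.Adj i x) with hN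
    have hS : Ind ((X \ N) ∪ I) := by
      have aux : ∀ a ∈ X \ N, ∀ b ∈ I, ¬ G.Adj b a := by
        intro a ha b hb hab
        rw [mem_sdiff] at ha
        exact ha.2 (mem_filter.2 ⟨ha.1, b, hb, hab⟩)
      intro a ha b hb hab
      rw [mem_union] at ha hb
      rcases ha with ha | ha <;> rcases hb with hb | hb
      · exact hX a (mem_sdiff.1 ha).1 b (mem_sdiff.1 hb).1 hab
      · exact aux a ha b hb hab.symm
      · exact aux b hb a ha hab
      · exact hI a ha b hb hab
    have h1 := hXmax' _ hS
    have hdisj : Disjoint (X \ N) I := by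
      rw [Finset.disjoint_left]
      intro a ha hb
      exact hIX a hb (mem_sdiff.1 ha).1
    rw [card_union_of_disjoint hdisj] at h1
    have h2 : (X \ N).card + N.card = X.card :=
      card_sdiff_add_card_eq_card (filter_subset _ _)
    omega
  have hnb : ∀ u, u ∉ X → ∃ x ∈ X, G.Adj u x := by
    intro u hu
    have h := hex {u} (by intro a ha b hb; rw [mem_singleton] at ha hb; subst ha; subst hb; simp)
      (by intro i hi; rw [mem_singleton] at hi; rw [hi]; exact hu)
    rw [card_singleton] at h
    obtain ⟨x, hx⟩ := card_pos.1 (by omega : 0 < (X.filter (fun x => ∃ i ∈ ({u} : Finset V), G.Adj i x)).card)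
    rw [mem_filter] at hx
    obtain ⟨i, hi, hix⟩ := hx.2
    rw [mem_singleton] at hi
    subst hi
    exact ⟨x, hx.1, hix⟩
  -- components outside X
  let G' : SimpleGraph {v // v ∉ X} := G.comap Subtype.val
  have hrep : ∀ P : G'.ConnectedComponent, ∃ v, G'.connectedComponentMk v = P := fun P =>
    P.exists_rep
  choose r hr using hrep
  obtain ⟨xP, hxinj, hxP⟩ : ∃ xP : G'.ConnectedComponent → V, Function.Injective xP ∧
      ∀ P, xP P ∈ X.filter (fun x => G.Adj (r P).1 x) := by
    rw [← Finset.all_card_le_biUnion_card_iff_exists_injective]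
    intro s
    have hrinj : Function.Injective (fun P => (r P).1) := by
      intro P Q h
      have : r P = r Q := Subtype.ext h
      rw [← hr P, ← hr Q, this]
    have h1 := hex (s.image (fun P => (r P).1)) (by
      intro a ha b hb hab
      rw [mem_image] at ha hb
      obtain ⟨P, _, rfl⟩ := ha
      obtain ⟨Q, _, rfl⟩ := hb
      have h2 : G'.Adj (r P) (r Q) := hab
      have h3 : G'.connectedComponentMk (r P) = G'.connectedComponentMk (r Q) :=
        SimpleGraph.ConnectedComponent.sound h2.reachable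
      rw [hr P, hr Q] at h3
      subst h3
      exact G.irrefl hab) (by
      intro i hi
      rw [mem_image] at hi
      obtain ⟨P, _, rfl⟩ := hi
      exact (r P).2)
    rw [card_image_of_injective _ hrinj] at h1
    refine h1.trans (card_le_card ?_)
    intro x hx
    rw [mem_filter] at hx
    obtain ⟨i, hi, hix⟩ := hx.2
    rw [mem_image] at hi
    obtain ⟨P, hP, rfl⟩ := hi
    rw [mem_biUnion]
    exact ⟨P, hP, mem_filter.2 ⟨hx.1, hix⟩⟩
  -- choice of two neighbours
  have hchoose : ∀ u : V, ∃ e : V × V, (u ∈ X ∧ G.degree u = Δ) →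
      G.Adj u e.1 ∧ G.Adj u e.2 ∧ e.1 ≠ e.2 ∧ ∀ P, xP P = u → e.1 ≠ (r P).1 ∧ e.2 ≠ (r P).1 := by
    intro u
    by_cases hu : u ∈ X ∧ G.degree u = Δ
    · let bad : Finset V := univ.filter (fun v => ∃ P, xP P = u ∧ (r P).1 = v)
      have hbad : bad.card ≤ 1 := by
        rw [card_le_one]
        intro a ha b hb
        simp only [bad, mem_filter, mem_univ, true_and] at ha hb
        obtain ⟨P, hP, rfl⟩ := ha
        obtain ⟨Q, hQ, rfl⟩ := hb
        rw [hxinj (hP.trans hQ.symm)]
      have hcard : 1 < (G.neighborFinset u \ bad).card := by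
        have h1 : (G.neighborFinset u).card = Δ := by rw [G.card_neighborFinset_eq_degree]; exact hu.2
        have h2 := le_card_sdiff bad (G.neighborFinset u)
        omega
      obtain ⟨a, ha, b, hb, hab⟩ := one_lt_card.1 hcard
      rw [mem_sdiff, G.mem_neighborFinset] at ha hb
      refine ⟨(a, b), fun _ => ⟨ha.1, hb.1, hab, ?_⟩⟩
      intro P hP
      constructor
      · intro h
        exact ha.2 (mem_filter.2 ⟨mem_univ _, P, hP, h.symm⟩)
      · intro h
        exact hb.2 (mem_filter.2 ⟨mem_univ _, P, hP, h.symm⟩)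
    · exact ⟨(u, u), fun h => absurd h hu⟩
  choose e he using hchoose
  -- the auxiliary graph
  let H : V → V → Prop := fun a b => a ≠ b ∧ (G.Adj a b ∨ ∃ u, (u ∈ X ∧ G.degree u = Δ) ∧
    ((a = (e u).1 ∧ b = (e u).2) ∨ (a = (e u).2 ∧ b = (e u).1)))
  have hHsym : ∀ a b, H a b → H b a := by
    rintro a b ⟨h1, h2⟩
    refine ⟨h1.symm, ?_⟩
    rcases h2 with h2 | ⟨u, hu, h2⟩
    · exact Or.inl h2.symm
    · exact Or.inr ⟨u, hu, h2.symm.imp And.symm And.symm⟩
  have hHirr : ∀ a, ¬ H a a := fun a h => h.1 rfl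
  -- counting
  let S : V → Finset V := fun a => X.filter (fun u => G.degree u = Δ ∧ G.Adj a u ∧
    (a = (e u).1 ∨ a = (e u).2))
  have hcnt : ∀ (W : Finset V) (a c : V), (∀ w ∈ W, w ∉ X) → a ∈ W → G.Adj a c → c ∉ W →
      c ∉ S a → (W.filter (H a)).card < Δ := by
    intro W a c hWX haW hac hcW hcS
    have h1 : W.filter (H a) ⊆ (W.filter (G.Adj a)) ∪
        (S a).image (fun u => if a = (e u).1 then (e u).2 else (e u).1) := by
      intro b hb
      rw [mem_filter] at hb
      obtain ⟨hbW, hab, h2⟩ := hb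
      rw [mem_union]
      rcases h2 with h2 | ⟨u, hu, h2⟩
      · exact Or.inl (mem_filter.2 ⟨hbW, h2⟩)
      · right
        rw [mem_image]
        have heu := he u hu
        rcases h2 with ⟨ha, hb⟩ | ⟨ha, hb⟩
        · refine ⟨u, mem_filter.2 ⟨hu.1, hu.2, ?_, Or.inl ha⟩, ?_⟩
          · rw [ha]; exact heu.1.symm
          · rw [if_pos ha, hb]
        · refine ⟨u, mem_filter.2 ⟨hu.1, hu.2, ?_, Or.inr ha⟩, ?_⟩
          · rw [ha]; exact heu.2.1.symm
          · rw [if_neg, hb]
            rw [ha]; exact heu.2.2.1.symm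
    have h2 : (W.filter (H a)).card ≤ (W.filter (G.Adj a)).card + (S a).card :=
      (card_le_card h1).trans ((card_union_le _ _).trans (Nat.add_le_add_left card_image_le _))
    have hdisj : Disjoint (W.filter (G.Adj a)) (S a) := by
      rw [Finset.disjoint_left]
      intro x hx hx'
      exact hWX x (mem_filter.1 hx).1 (mem_filter.1 hx').1
    have h3 : (W.filter (G.Adj a)) ∪ (S a) ⊂ G.neighborFinset a := by
      rw [ssubset_iff_of_subset]
      · refine ⟨c, (G.mem_neighborFinset _ _).2 hac, ?_⟩
        rw [mem_union]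
        rintro (h | h)
        · exact hcW (mem_filter.1 h).1
        · exact hcS h
      · intro x hx
        rw [mem_union] at hx
        rw [G.mem_neighborFinset]
        rcases hx with hx | hx
        · exact (mem_filter.1 hx).2
        · exact (mem_filter.1 hx).2.2.1
    have h4 := card_lt_card h3
    rw [card_union_of_disjoint hdisj, G.card_neighborFinset_eq_degree] at h4
    have := hΔ a
    omega
  have hdeg : ∀ W ⊆ (univ.filter (fun v => v ∉ X)), W.Nonempty →
      ∃ a ∈ W, (W.filter (H a)).card < Δ := by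
    intro W hWU hne
    have hWX : ∀ w ∈ W, w ∉ X := fun w hw => (mem_filter.1 (hWU hw)).2
    obtain ⟨w, hw⟩ := hne
    let w' : {v // v ∉ X} := ⟨w, hWX w hw⟩
    let P := G'.connectedComponentMk w'
    by_cases hrW : (r P).1 ∈ W
    · have hx := mem_filter.1 (hxP P)
      refine ⟨(r P).1, hrW, hcnt W _ (xP P) hWX hrW hx.2 (fun h => hWX _ h hx.1) ?_⟩
      intro hS
      have hS' := mem_filter.1 hS
      have := (he (xP P) ⟨hx.1, hS'.2.1⟩).2.2.2 P rfl
      rcases hS'.2.2.2 with h | h
      · exact this.1 h.symm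
      · exact this.2 h.symm
    · have hreach : G'.Reachable w' (r P) := by
        apply SimpleGraph.ConnectedComponent.exact
        rw [hr P]
      obtain ⟨p⟩ := hreach
      obtain ⟨d, _, hd1, hd2⟩ := p.exists_boundary_dart {v | v.1 ∈ W} hw hrW
      have hadj : G.Adj d.fst.1 d.snd.1 := d.adj
      refine ⟨d.fst.1, hd1, hcnt W _ d.snd.1 hWX hd1 hadj hd2 ?_⟩
      intro hS
      exact d.snd.2 (mem_filter.1 hS).1
  obtain ⟨g, hg⟩ := PhaseA.degen H hHsym hHirr Δ (by omega) _ hdeg
  have hg' : ∀ a b, a ∉ X → b ∉ X → H a b → g a ≠ g b := fun a b ha hb =>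
    hg a (mem_filter.2 ⟨mem_univ _, ha⟩) b (mem_filter.2 ⟨mem_univ _, hb⟩)
  refine ⟨fun v => if v ∈ X then none else some (g v), ?_, ?_, ?_⟩
  · intro u v huv
    by_cases hu : u ∈ X <;> by_cases hv : v ∈ X
    · exact absurd huv (hX u hu v hv)
    · simp [hu, hv]
    · simp [hu, hv]
    · simp only [hu, hv, if_false]
      intro h
      exact hg' u v hu hv ⟨huv.ne, Or.inl huv⟩ (Option.some.inj h)
  · intro u hu
    have hu' : u ∉ X := fun h => hu (by simp [h])
    obtain ⟨x, hx, hux⟩ := hnb u hu'
    exact ⟨x, hux, by simp [hx]⟩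
  · intro u
    let f : V → Option (Fin Δ) := fun v => if v ∈ X then none else some (g v)
    let t : {v // G.Adj u v} → Finset (Fin Δ) := fun v => univ.filter (fun m => f v.1 ≠ some m)
    have hcardN : Fintype.card {v // G.Adj u v} = G.degree u := by
      rw [← G.card_neighborSet_eq_degree]; rfl
    have hall : ∀ B : Finset {v // G.Adj u v}, B.card ≤ (B.biUnion t).card := by
      intro B
      by_contra hcon
      push Not at hcon
      have hB1 : B.card ≤ Fintype.card {v // G.Adj u v} := card_le_univ B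
      have hu1 := hΔ u
      have : ∃ m, m ∉ B.biUnion t := by
        by_contra h
        push Not at h
        have h2 : (univ : Finset (Fin Δ)) ⊆ B.biUnion t := fun c _ => h c
        have h4 := card_le_card h2
        rw [card_univ, Fintype.card_fin] at h4
        omega
      obtain ⟨m, hm⟩ := this
      have hfm : ∀ v ∈ B, f v.1 = some m := by
        intro v hv
        by_contra h
        exact hm (mem_biUnion.2 ⟨v, hv, mem_filter.2 ⟨mem_univ _, h⟩⟩)
      have hBne : B.Nonempty := card_pos.1 (by omega)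
      obtain ⟨v0, hv0⟩ := hBne
      have h5 : (univ.erase m : Finset (Fin Δ)) ⊆ B.biUnion t := by
        intro c hc
        rw [mem_biUnion]
        refine ⟨v0, hv0, mem_filter.2 ⟨mem_univ _, ?_⟩⟩
        rw [hfm v0 hv0]
        intro h
        exact (mem_erase.1 hc).1 (Option.some.inj h).symm
      have h6 := card_le_card h5
      rw [card_erase_of_mem (mem_univ _), card_univ, Fintype.card_fin] at h6
      have hdegu : G.degree u = Δ := by omega
      have hBuniv : B = univ := by
        apply eq_univ_of_card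
        omega
      have hall' : ∀ v, G.Adj u v → f v = some m := fun v hv =>
        hfm ⟨v, hv⟩ (by rw [hBuniv]; exact mem_univ _)
      by_cases huX : u ∈ X
      · obtain ⟨h7, h8, h9, _⟩ := he u ⟨huX, hdegu⟩
        have h10 : (e u).1 ∉ X := fun h => hX u huX _ h h7
        have h11 : (e u).2 ∉ X := fun h => hX u huX _ h h8
        have h12 := hall' _ h7
        have h13 := hall' _ h8
        simp only [f, h10, h11, if_false] at h12 h13
        exact hg' _ _ h10 h11 ⟨h9, Or.inr ⟨u, ⟨huX, hdegu⟩, Or.inl ⟨rfl, rfl⟩⟩⟩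
          ((Option.some.inj h12).trans (Option.some.inj h13).symm)
      · obtain ⟨x, hx, hux⟩ := hnb u huX
        have := hall' x hux
        simp [f, hx] at this
    obtain ⟨F, hF, hFt⟩ := (Finset.all_card_le_biUnion_card_iff_exists_injective t).1 hall
    refine ⟨fun v => if h : G.Adj u v then F ⟨v, h⟩ else ⟨0, by omega⟩, ?_, ?_⟩
    · intro v w hv hw h
      simp only [hv, hw, dif_pos] at h
      exact congrArg Subtype.val (hF h)
    · intro v hv
      simp only [hv, dif_pos]
      exact (mem_filter.1 (hFt ⟨v, hv⟩)).2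

end Pool.R300.TT
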