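import Pool.Agent.R300.TT.Defs

/-!
# Phase B: an arc labelling without long cycles
-/

namespace Pool.R300.TT

open SimpleGraph Finset

variable {V : Type*} [Fintype V] [DecidableEq V] {Δ : ℕ}

/-- A row `φ` is good at `u`: injective on the neighbours, and `v` never gets its own class. -/
def GoodRow (G : SimpleGraph V) (f : V → Option (Fin Δ)) (u : V) (φ : V → Fin Δ) : Prop :=
  (∀ v w, G.Adj u v → G.Adj u w → φ v = φ w → v = w) ∧ ∀ v, G.Adj u v → f v ≠ some (φ v)

/-- all rows are good -/
def Good (G : SimpleGraph V) (f : V → Option (Fin Δ)) (ι : V → V → Fin Δ) : Prop :=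
  ∀ u, GoodRow G f u (ι u)

/-- the neighbours `v` of `u` whose label in the row `φ` agrees with `ι v u` -/
def sset (G : SimpleGraph V) [DecidableRel G.Adj] (ι : V → V → Fin Δ) (u : V)
    (φ : V → Fin Δ) : Finset V :=
  Finset.univ.filter (fun v => G.Adj u v ∧ φ v = ι v u)

/-- number of symmetric pairs -/
def Sy (G : SimpleGraph V) [DecidableRel G.Adj] (ι : V → V → Fin Δ) : ℕ :=
  ∑ v, ∑ w, if G.Adj v w ∧ ι v w = ι w v then 1 else 0

lemma sum_split (e : V → V → ℕ) (hs : ∀ v w, e v w = e w v) (u : V) (h0 : e u u = 0) :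
    ∑ v, ∑ w, e v w = 2 * ∑ w, e u w +
      ∑ v ∈ Finset.univ.erase u, ∑ w ∈ Finset.univ.erase u, e v w := by
  have h1 : ∀ g : V → ℕ, ∑ w, g w = g u + ∑ w ∈ Finset.univ.erase u, g w := by
    intro g
    rw [Finset.add_sum_erase _ _ (Finset.mem_univ u)]
  rw [h1 (fun v => ∑ w, e v w)]
  have h2 : ∑ v ∈ Finset.univ.erase u, ∑ w, e v w
      = ∑ v ∈ Finset.univ.erase u, (e v u + ∑ w ∈ Finset.univ.erase u, e v w) :=
    Finset.sum_congr rfl (fun v _ => h1 (e v))
  rw [h2, Finset.sum_add_distrib]
  have h3 : ∑ v ∈ Finset.univ.erase u, e v u = ∑ w, e u w := by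
    rw [h1 (e u), h0, zero_add]
    exact Finset.sum_congr rfl (fun v _ => hs v u)
  rw [h3]
  ring

lemma sy_update (G : SimpleGraph V) [DecidableRel G.Adj] (ι : V → V → Fin Δ) (u : V)
    (φ : V → Fin Δ) :
    Sy G (Function.update ι u φ) + 2 * (sset G ι u (ι u)).card
      = Sy G ι + 2 * (sset G ι u φ).card := by
  unfold Sy
  rw [sum_split _ _ u (by simp), sum_split (fun v w => if G.Adj v w ∧ ι v w = ι w v then 1 else 0) _ u (by simp)]
  · have e1 : ∑ w, (if G.Adj u w ∧ (Function.update ι u φ) u w = (Function.update ι u φ) w u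
        then 1 else 0) = (sset G ι u φ).card := by
      unfold sset
      rw [Finset.card_filter]
      refine Finset.sum_congr rfl (fun w _ => ?_)
      by_cases hw : w = u
      · subst hw; simp
      · rw [Function.update_self, Function.update_of_ne hw]
    have e2 : ∑ w, (if G.Adj u w ∧ ι u w = ι w u then 1 else 0) = (sset G ι u (ι u)).card := by
      unfold sset
      rw [Finset.card_filter]
    have e3 : ∑ v ∈ Finset.univ.erase u, ∑ w ∈ Finset.univ.erase u,
        (if G.Adj v w ∧ (Function.update ι u φ) v w = (Function.update ι u φ) w v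
          then 1 else 0)
        = ∑ v ∈ Finset.univ.erase u, ∑ w ∈ Finset.univ.erase u,
          (if G.Adj v w ∧ ι v w = ι w v then 1 else 0) := by
      refine Finset.sum_congr rfl (fun v hv => Finset.sum_congr rfl (fun w hw => ?_))
      rw [Function.update_of_ne (Finset.ne_of_mem_erase hv),
        Function.update_of_ne (Finset.ne_of_mem_erase hw)]
    rw [e1, e3, e2]
    ring
  · intro v w
    have : (G.Adj v w ∧ ι v w = ι w v) ↔ (G.Adj w v ∧ ι w v = ι v w) :=
      ⟨fun h => ⟨h.1.symm, h.2.symm⟩, fun h => ⟨h.1.symm, h.2.symm⟩⟩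
    simp only [this]
  · intro v w
    have : (G.Adj v w ∧ (Function.update ι u φ) v w = (Function.update ι u φ) w v) ↔
        (G.Adj w v ∧ (Function.update ι u φ) w v = (Function.update ι u φ) v w) :=
      ⟨fun h => ⟨h.1.symm, h.2.symm⟩, fun h => ⟨h.1.symm, h.2.symm⟩⟩
    simp only [this]

/-- `ι` is good with the maximum number of symmetric pairs -/
def IsMax (G : SimpleGraph V) [DecidableRel G.Adj] (f : V → Option (Fin Δ))
    (ι : V → V → Fin Δ) : Prop :=
  Good G f ι ∧ ∀ ι', Good G f ι' → Sy G ι' ≤ Sy G ι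

lemma good_update (G : SimpleGraph V) {f : V → Option (Fin Δ)} {ι : V → V → Fin Δ}
    (h : Good G f ι) {u : V} {φ : V → Fin Δ} (hφ : GoodRow G f u φ) :
    Good G f (Function.update ι u φ) := by
  intro v
  by_cases hv : v = u
  · subst hv; rw [Function.update_self]; exact hφ
  · rw [Function.update_of_ne hv]; exact h v

lemma row_max {G : SimpleGraph V} [DecidableRel G.Adj] {f : V → Option (Fin Δ)}
    {ι : V → V → Fin Δ} (h : IsMax G f ι) {u : V} {φ : V → Fin Δ} (hφ : GoodRow G f u φ) :
    (sset G ι u φ).card ≤ (sset G ι u (ι u)).card := by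
  have h1 := h.2 _ (good_update G h.1 hφ)
  have h2 := sy_update G ι u φ
  omega

lemma row_eq {G : SimpleGraph V} [DecidableRel G.Adj] {f : V → Option (Fin Δ)}
    {ι : V → V → Fin Δ} (h : IsMax G f ι) {u : V} {φ : V → Fin Δ} (hφ : GoodRow G f u φ)
    (hc : (sset G ι u (ι u)).card ≤ (sset G ι u φ).card) :
    IsMax G f (Function.update ι u φ) := by
  refine ⟨good_update G h.1 hφ, fun ι' h' => ?_⟩
  have h1 := h.2 _ h'
  have h2 := sy_update G ι u φ
  omega

/-- On a long cycle of a maximal labelling, `f (c (n+1)) = some (ι (c n) (c (n-1)))`. -/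
theorem stuck {G : SimpleGraph V} [DecidableRel G.Adj] {f : V → Option (Fin Δ)}
    {ι : V → V → Fin Δ} (hmax : IsMax G f ι) {i : Fin Δ} {c : ℤ → V} (hc : LCyc G ι i c)
    (n : ℤ) : f (c (n + 1)) = some (ι (c n) (c (n - 1))) := by
  by_contra hne
  obtain ⟨harc, hturn⟩ := hc
  have a1 : Arc G ι i (c (n - 2)) (c (n - 1)) := by
    have := harc (n - 2); rwa [show n - 2 + 1 = n - 1 by ring] at this
  have a2 : Arc G ι i (c (n - 1)) (c n) := by
    have := harc (n - 1); rwa [show n - 1 + 1 = n by ring] at this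
  have a3 : Arc G ι i (c n) (c (n + 1)) := harc n
  have a4 : Arc G ι i (c (n + 1)) (c (n + 2)) := by
    have := harc (n + 1); rwa [show n + 1 + 1 = n + 2 by ring] at this
  have hpw : c (n + 1) ≠ c (n - 1) := by
    have := hturn (n - 1); rwa [show n - 1 + 2 = n + 1 by ring] at this
  have hwu : c (n + 2) ≠ c n := hturn n
  generalize c (n - 2) = q at *
  generalize c (n - 1) = p at *
  generalize c n = u at *
  generalize c (n + 1) = w at *
  generalize c (n + 2) = w' at *
  have hgood := hmax.1
  obtain ⟨j, hj⟩ : ∃ j, j = ι u p := ⟨_, rfl⟩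
  rw [← hj] at hne
  have hji : j ≠ i := by
    intro h
    exact hpw ((hgood u).1 w p a3.1 a2.1.symm (by rw [a3.2, ← hj, h]))
  have hwui : ι w u ≠ i := by
    intro h
    exact hwu ((hgood w).1 w' u a4.1 a3.1.symm (by rw [a4.2, h]))
  have hrow : GoodRow G f u (fun v => Equiv.swap i j (ι u v)) := by
    refine ⟨fun v v' hv hv' h => (hgood u).1 v v' hv hv' ((Equiv.swap i j).injective h), ?_⟩
    intro v hv
    by_cases h1 : ι u v = i
    · have : v = w := (hgood u).1 v w hv a3.1 (by rw [h1, a3.2])
      subst this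
      simp only [h1, Equiv.swap_apply_left]
      exact hne
    · by_cases h2 : ι u v = j
      · have : v = p := (hgood u).1 v p hv a2.1.symm (by rw [h2, hj])
        subst this
        simp only [h2, Equiv.swap_apply_right]
        have := (hgood q).2 v a1.1
        rwa [a1.2] at this
      · simp only [Equiv.swap_apply_of_ne_of_ne h1 h2]
        exact (hgood u).2 v hv
  have hle := row_max hmax hrow
  have hsub : insert p (sset G ι u (ι u)) ⊆ sset G ι u (fun v => Equiv.swap i j (ι u v)) := by
    intro v hv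
    rw [Finset.mem_insert] at hv
    rcases hv with rfl | hv
    · simp only [sset, Finset.mem_filter, Finset.mem_univ, true_and]
      exact ⟨a2.1.symm, by rw [← hj, Equiv.swap_apply_right, a2.2]⟩
    · simp only [sset, Finset.mem_filter, Finset.mem_univ, true_and] at hv ⊢
      refine ⟨hv.1, ?_⟩
      have h1 : ι u v ≠ i := by
        intro h
        have hvw : v = w := (hgood u).1 v w hv.1 a3.1 (by rw [h, a3.2])
        subst hvw
        exact hwui (by rw [← hv.2, h])
      have h2 : ι u v ≠ j := by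
        intro h
        have hvp : v = p := (hgood u).1 v p hv.1 a2.1.symm (by rw [h, hj])
        subst hvp
        exact hji (by rw [← h, hv.2, a2.2])
      rw [Equiv.swap_apply_of_ne_of_ne h1 h2]
      exact hv.2
  have hnot : p ∉ sset G ι u (ι u) := by
    simp only [sset, Finset.mem_filter, Finset.mem_univ, true_and]
    rintro ⟨_, h⟩
    exact hji (by rw [hj, h, a2.2])
  have := Finset.card_le_card hsub
  rw [Finset.card_insert_of_notMem hnot] at this
  omega

/-- the set of positions on long cycles -/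
def LS (G : SimpleGraph V) (ι : V → V → Fin Δ) : Set (Fin Δ × V) :=
  {x | ∃ c : ℤ → V, LCyc G ι x.1 c ∧ c 0 = x.2}

lemma LCyc.shift {G : SimpleGraph V} {ι : V → V → Fin Δ} {i : Fin Δ} {c : ℤ → V}
    (hc : LCyc G ι i c) (k : ℤ) : LCyc G ι i (fun n => c (n + k)) := by
  refine ⟨fun n => ?_, fun n => ?_⟩
  · have := hc.1 (n + k)
    simpa only [show n + 1 + k = n + k + 1 by ring] using this
  · have := hc.2 (n + k)
    simpa only [show n + 2 + k = n + k + 2 by ring] using this

lemma exists_cyc4 {α : Type*} [DecidableEq α] (j i h l : α) (ji : j ≠ i) (jh : j ≠ h)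
    (jl : j ≠ l) (ih : i ≠ h) (il : i ≠ l) (hl : h ≠ l) :
    ∃ τ : α → α, Function.Injective τ ∧ τ j = i ∧ τ i = h ∧ τ h = l ∧ τ l = j ∧
      ∀ m, m ≠ j → m ≠ i → m ≠ h → m ≠ l → τ m = m := by
  refine ⟨fun m => Equiv.swap j i (Equiv.swap i h (Equiv.swap h l m)),
    (Equiv.swap j i).injective.comp ((Equiv.swap i h).injective.comp
      (Equiv.swap h l).injective), ?_, ?_, ?_, ?_, ?_⟩
  · simp only
    rw [Equiv.swap_apply_of_ne_of_ne jh jl, Equiv.swap_apply_of_ne_of_ne ji jh,
      Equiv.swap_apply_left]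
  · simp only
    rw [Equiv.swap_apply_of_ne_of_ne ih il, Equiv.swap_apply_left,
      Equiv.swap_apply_of_ne_of_ne jh.symm ih.symm]
  · simp only
    rw [Equiv.swap_apply_left, Equiv.swap_apply_of_ne_of_ne il.symm hl.symm,
      Equiv.swap_apply_of_ne_of_ne jl.symm il.symm]
  · simp only
    rw [Equiv.swap_apply_right, Equiv.swap_apply_right, Equiv.swap_apply_right]
  · intro m m1 m2 m3 m4
    simp only
    rw [Equiv.swap_apply_of_ne_of_ne m3 m4, Equiv.swap_apply_of_ne_of_ne m2 m3,
      Equiv.swap_apply_of_ne_of_ne m1 m2]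

lemma exists_cyc3 {α : Type*} [DecidableEq α] (j i h : α) (ji : j ≠ i) (jh : j ≠ h)
    (ih : i ≠ h) :
    ∃ τ : α → α, Function.Injective τ ∧ τ j = i ∧ τ i = h ∧ τ h = j ∧
      ∀ m, m ≠ j → m ≠ i → m ≠ h → τ m = m := by
  refine ⟨fun m => Equiv.swap j i (Equiv.swap i h m),
    (Equiv.swap j i).injective.comp (Equiv.swap i h).injective, ?_, ?_, ?_, ?_⟩
  · simp only
    rw [Equiv.swap_apply_of_ne_of_ne ji jh, Equiv.swap_apply_left]
  · simp only
    rw [Equiv.swap_apply_left, Equiv.swap_apply_of_ne_of_ne jh.symm ih.symm]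
  · simp only
    rw [Equiv.swap_apply_right, Equiv.swap_apply_right]
  · intro m m1 m2 m3
    simp only
    rw [Equiv.swap_apply_of_ne_of_ne m2 m3, Equiv.swap_apply_of_ne_of_ne m1 m2]

/-- The main step: a maximal labelling with a long cycle can be replaced by a maximal labelling
with fewer positions on long cycles. -/
theorem step {G : SimpleGraph V} [DecidableRel G.Adj] {f : V → Option (Fin Δ)}
    (hf : ∀ u v, G.Adj u v → f u ≠ f v)
    (hX : ∀ u, f u ≠ none → ∃ x, G.Adj u x ∧ f x = none)
    {ι : V → V → Fin Δ} (hmax : IsMax G f ι) {i : Fin Δ} {c : ℤ → V} (hc : LCyc G ι i c) :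
    ∃ ι', IsMax G f ι' ∧ LS G ι' ⊂ LS G ι := by
  have hgood := hmax.1
  have s0 : f (c 1) = some (ι (c 0) (c (-1))) := by simpa using stuck hmax hc 0
  have s1 : f (c 2) = some (ι (c 1) (c 0)) := by simpa using stuck hmax hc 1
  have sm1 : f (c 0) = some (ι (c (-1)) (c (-2))) := by simpa using stuck hmax hc (-1)
  have sm2 : f (c (-1)) = some (ι (c (-2)) (c (-3))) := by simpa using stuck hmax hc (-2)
  have a1 : Arc G ι i (c (-2)) (c (-1)) := by simpa using hc.1 (-2)
  have a2 : Arc G ι i (c (-1)) (c 0) := by simpa using hc.1 (-1)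
  have a3 : Arc G ι i (c 0) (c 1) := by simpa using hc.1 0
  have a4 : Arc G ι i (c 1) (c 2) := by simpa using hc.1 1
  have hpw : c 1 ≠ c (-1) := by simpa using hc.2 (-1)
  have hwu : c 2 ≠ c 0 := by simpa using hc.2 0
  obtain ⟨u, hu⟩ : ∃ u, u = c 0 := ⟨_, rfl⟩
  obtain ⟨p, hp⟩ : ∃ p, p = c (-1) := ⟨_, rfl⟩
  obtain ⟨q, hq⟩ : ∃ q, q = c (-2) := ⟨_, rfl⟩
  obtain ⟨w, hw⟩ : ∃ w, w = c 1 := ⟨_, rfl⟩
  obtain ⟨w', hw'⟩ : ∃ w', w' = c 2 := ⟨_, rfl⟩
  rw [← hu, ← hp, ← hw] at s0
  rw [← hu, ← hw, ← hw'] at s1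
  rw [← hu, ← hp, ← hq] at sm1
  rw [← hp, ← hq] at sm2
  rw [← hp, ← hq] at a1
  rw [← hp, ← hu] at a2
  rw [← hu, ← hw] at a3
  rw [← hw, ← hw'] at a4
  rw [← hw, ← hp] at hpw
  rw [← hw', ← hu] at hwu
  obtain ⟨j, hj⟩ : ∃ j, j = ι u p := ⟨_, rfl⟩
  obtain ⟨h, hh⟩ : ∃ h, h = ι w u := ⟨_, rfl⟩
  rw [← hj] at s0
  rw [← hh] at s1
  have hup : G.Adj u p := a2.1.symm
  have hwadj : G.Adj w u := a3.1.symm
  have hji : j ≠ i := by
    intro e
    exact hpw ((hgood u).1 w p a3.1 hup (by rw [a3.2, ← hj, e]))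
  have hhi : h ≠ i := by
    intro e
    exact hwu ((hgood w).1 w' u a4.1 hwadj (by rw [a4.2, ← hh, e]))
  have hhj : h ≠ j := by
    intro e
    apply hf w w' a4.1
    rw [s0, s1, e]
  have hfpi : f p ≠ some i := by
    have := (hgood q).2 p a1.1
    rwa [a1.2] at this
  obtain ⟨x, hux, hfx⟩ := hX u (by rw [sm1]; simp)
  obtain ⟨l, hl⟩ : ∃ l, l = ι u x := ⟨_, rfl⟩
  have hxp : x ≠ p := by
    rintro rfl
    rw [hfx] at sm2; simp at sm2
  have hxw : x ≠ w := by
    rintro rfl
    rw [hfx] at s0; simp at s0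
  have hlj : l ≠ j := by
    intro e
    exact hxp ((hgood u).1 x p hux hup (by rw [← hl, ← hj, e]))
  have hli : l ≠ i := by
    intro e
    exact hxw ((hgood u).1 x w hux a3.1 (by rw [← hl, a3.2, e]))
  -- index uniqueness at `u`
  have uq : ∀ v v', G.Adj u v → G.Adj u v' → ι u v = ι u v' → v = v' := (hgood u).1
  have hp_notin : p ∉ sset G ι u (ι u) := by
    simp only [sset, Finset.mem_filter, Finset.mem_univ, true_and]
    rintro ⟨_, e⟩
    exact hji (by rw [hj, e, a2.2])
  have hw_notin : w ∉ sset G ι u (ι u) := by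
    simp only [sset, Finset.mem_filter, Finset.mem_univ, true_and]
    rintro ⟨_, e⟩
    exact hhi (by rw [hh, ← e, a3.2])
  by_cases hy : ∃ y, G.Adj u y ∧ ι u y = h ∧ f y = some j
  · obtain ⟨y, huy, hyh, hfy⟩ := hy
    have hlh : l ≠ h := by
      intro e
      have : x = y := uq x y hux huy (by rw [← hl, hyh, e])
      rw [this, hfy] at hfx
      simp at hfx
    -- the 4-cycle
    obtain ⟨τ, tinj, tj, ti, th, tl, tother⟩ :=
      exists_cyc4 j i h l hji hhj.symm hlj.symm hhi.symm hli.symm hlh.symm
    have hrow : GoodRow G f u (fun v => τ (ι u v)) := by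
      refine ⟨fun v v' hv hv' e => uq v v' hv hv' (tinj e), ?_⟩
      intro v hv
      show f v ≠ some (τ (ι u v))
      by_cases h1 : ι u v = j
      · have : v = p := uq v p hv hup (by rw [h1, hj])
        subst this
        rw [h1, tj]; exact hfpi
      by_cases h2 : ι u v = i
      · have : v = w := uq v w hv a3.1 (by rw [h2, a3.2])
        subst this
        rw [h2, ti, s0]
        intro e; exact hhj (Option.some.inj e).symm
      by_cases h3 : ι u v = h
      · have : v = y := uq v y hv huy (by rw [h3, hyh])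
        subst this
        rw [h3, th, hfy]
        intro e; exact hlj (Option.some.inj e).symm
      by_cases h4 : ι u v = l
      · have : v = x := uq v x hv hux (by rw [h4, hl])
        subst this
        rw [h4, tl, hfx]; simp
      rw [tother _ h1 h2 h3 h4]
      exact (hgood u).2 v hv
    have hcard : (sset G ι u (ι u)).card ≤ (sset G ι u (fun v => τ (ι u v))).card := by
      have hsub : insert p (insert w (((sset G ι u (ι u)).erase x).erase y))
          ⊆ sset G ι u (fun v => τ (ι u v)) := by
        intro v hv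
        rw [Finset.mem_insert, Finset.mem_insert] at hv
        simp only [sset, Finset.mem_filter, Finset.mem_univ, true_and]
        rcases hv with rfl | rfl | hv
        · exact ⟨hup, by rw [← hj, tj, a2.2]⟩
        · exact ⟨a3.1, by rw [a3.2, ti, hh]⟩
        · rw [Finset.mem_erase, Finset.mem_erase] at hv
          obtain ⟨hvy, hvx, hv⟩ := hv
          have hv' := hv
          simp only [sset, Finset.mem_filter, Finset.mem_univ, true_and] at hv'
          refine ⟨hv'.1, ?_⟩
          rw [tother]
          · exact hv'.2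
          · intro e
            have : v = p := uq v p hv'.1 hup (by rw [e, hj])
            exact hp_notin (this ▸ hv)
          · intro e
            have : v = w := uq v w hv'.1 a3.1 (by rw [e, a3.2])
            exact hw_notin (this ▸ hv)
          · intro e
            exact hvy (uq v y hv'.1 huy (by rw [e, hyh]))
          · intro e
            exact hvx (uq v x hv'.1 hux (by rw [e, hl]))
      have c1 := Finset.card_le_card hsub
      rw [Finset.card_insert_of_notMem, Finset.card_insert_of_notMem] at c1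
      · have c2 := Finset.pred_card_le_card_erase (s := (sset G ι u (ι u)).erase x) (a := y)
        have c3 := Finset.pred_card_le_card_erase (s := sset G ι u (ι u)) (a := x)
        omega
      · intro hcon
        exact hw_notin (Finset.mem_of_mem_erase (Finset.mem_of_mem_erase hcon))
      · rw [Finset.mem_insert]
        rintro (e | hcon)
        · exact hpw e.symm
        · exact hp_notin (Finset.mem_of_mem_erase (Finset.mem_of_mem_erase hcon))
    have hmax' := row_eq hmax hrow hcard
    refine ⟨_, hmax', ?_⟩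
    obtain ⟨ι', hι'⟩ : ∃ ι', ι' = Function.update ι u (fun v => τ (ι u v)) := ⟨_, rfl⟩
    rw [← hι'] at hmax' ⊢
    have hιu : ∀ v, ι' u v = τ (ι u v) := by intro v; rw [hι', Function.update_self]
    have hιo : ∀ v, v ≠ u → ι' v = ι v := by
      intro v hv; rw [hι', Function.update_of_ne hv]
    -- a long cycle of ι' with a label in {i, j, h, l} does not meet `u`
    have key : ∀ m c', LCyc G ι' m c' → (m = i ∨ m = j ∨ m = h ∨ m = l) → ∀ n, c' n ≠ u := by
      intro m c' hc' hm n hn
      have b1 := hc'.1 n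
      have b2 := hc'.1 (n + 1)
      have b3 := hc'.2 n
      have b0 := hc'.1 (n - 1)
      rw [show n - 1 + 1 = n by ring] at b0
      have st := stuck hmax' hc' n
      have st' := stuck hmax' hc' (n - 2)
      rw [show n - 2 + 1 = n - 1 by ring] at st'
      rw [hn] at b1 b3 b0 st
      rw [show n + 1 + 1 = n + 2 by ring] at b2
      have b1' : τ (ι u (c' (n + 1))) = m := by rw [← hιu]; exact b1.2
      rcases hm with rfl | rfl | rfl | rfl
      · -- m = i
        have e1 : ι u (c' (n + 1)) = j := tinj (by rw [b1', tj])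
        have e2 : c' (n + 1) = p := uq _ p b1.1 hup (by rw [e1, hj])
        rw [e2] at b2
        have hpu : p ≠ u := hup.ne'
        have e3 : ι p (c' (n + 2)) = m := by rw [← hιo p hpu]; exact b2.2
        exact b3 ((hgood p).1 _ u b2.1 a2.1 (by rw [e3, a2.2]))
      · -- m = j
        have e1 : ι u (c' (n + 1)) = l := tinj (by rw [b1', tl])
        have e2 : c' (n + 1) = x := uq _ x b1.1 hux (by rw [e1, hl])
        rw [e2, hfx] at st
        simp at st
      · -- m = h
        have e1 : ι u (c' (n + 1)) = i := tinj (by rw [b1', ti])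
        have e2 : c' (n + 1) = w := uq _ w b1.1 a3.1 (by rw [e1, a3.2])
        rw [e2] at b2
        have hwu' : w ≠ u := hwadj.ne
        have e3 : ι w (c' (n + 2)) = m := by rw [← hιo w hwu']; exact b2.2
        exact b3 ((hgood w).1 _ u b2.1 hwadj (by rw [e3, hh]))
      · -- m = l
        have e1 : ι u (c' (n + 1)) = h := tinj (by rw [b1', th])
        have e2 : c' (n + 1) = y := uq _ y b1.1 huy (by rw [e1, hyh])
        rw [e2, hfy] at st
        have e3 : τ (ι u (c' (n - 1))) = j := by
          rw [← hιu]; exact (Option.some.inj st).symm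
        have e4 : ι u (c' (n - 1)) = m := tinj (by rw [e3, tl])
        have e5 : c' (n - 1) = x := uq _ x b0.1.symm hux (by rw [e4, hl])
        rw [e5, hfx] at st'
        simp at st'
    -- long cycles of ι' are long cycles of ι
    have key2 : ∀ m c', LCyc G ι' m c' → LCyc G ι m c' := by
      intro m c' hc'
      refine ⟨fun n => ⟨(hc'.1 n).1, ?_⟩, hc'.2⟩
      have e := (hc'.1 n).2
      by_cases hn : c' n = u
      · have hm : ¬ (m = i ∨ m = j ∨ m = h ∨ m = l) := fun hm => key m c' hc' hm n hn
        push Not at hm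
        rw [hn, hιu] at e
        rw [hn]
        by_contra hne
        -- the value m is only attained by τ at m
        have : τ m = m := tother m hm.2.1 hm.1 hm.2.2.1 hm.2.2.2
        exact hne (tinj (by rw [e, this]))
      · rw [hιo _ hn] at e
        exact e
    refine ⟨fun z hz => ?_, fun hcon => ?_⟩
    · obtain ⟨c', hc', hz'⟩ := hz
      exact ⟨c', key2 _ _ hc', hz'⟩
    · have : ((i, u) : Fin Δ × V) ∈ LS G ι := ⟨c, hc, hu.symm⟩
      obtain ⟨c', hc', hz'⟩ := hcon this
      exact key i c' hc' (Or.inl rfl) 0 hz'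
  · -- the 3-cycle gives a contradiction
    exfalso
    push Not at hy
    obtain ⟨τ, tinj, tj, ti, th, tother⟩ := exists_cyc3 j i h hji hhj.symm hhi.symm
    have hrow : GoodRow G f u (fun v => τ (ι u v)) := by
      refine ⟨fun v v' hv hv' e => uq v v' hv hv' (tinj e), ?_⟩
      intro v hv
      show f v ≠ some (τ (ι u v))
      by_cases h1 : ι u v = j
      · have : v = p := uq v p hv hup (by rw [h1, hj])
        subst this
        rw [h1, tj]; exact hfpi
      by_cases h2 : ι u v = i
      · have : v = w := uq v w hv a3.1 (by rw [h2, a3.2])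
        subst this
        rw [h2, ti, s0]
        intro e; exact hhj (Option.some.inj e).symm
      by_cases h3 : ι u v = h
      · rw [h3, th]
        exact hy v hv h3
      rw [tother _ h1 h2 h3]
      exact (hgood u).2 v hv
    have hle := row_max hmax hrow
    obtain ⟨B, hB⟩ : ∃ B, B = (sset G ι u (ι u)).filter (fun v => ι u v = h) := ⟨_, rfl⟩
    have hB1 : B.card ≤ 1 := by
      rw [Finset.card_le_one]
      intro a ha b hb
      rw [hB, Finset.mem_filter] at ha hb
      have ha' := ha.1
      have hb' := hb.1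
      simp only [sset, Finset.mem_filter, Finset.mem_univ, true_and] at ha' hb'
      exact uq a b ha'.1 hb'.1 (by rw [ha.2, hb.2])
    have hsub : insert p (insert w ((sset G ι u (ι u)) \ B))
        ⊆ sset G ι u (fun v => τ (ι u v)) := by
      intro v hv
      rw [Finset.mem_insert, Finset.mem_insert] at hv
      simp only [sset, Finset.mem_filter, Finset.mem_univ, true_and]
      rcases hv with rfl | rfl | hv
      · exact ⟨hup, by rw [← hj, tj, a2.2]⟩
      · exact ⟨a3.1, by rw [a3.2, ti, hh]⟩
      · rw [Finset.mem_sdiff] at hv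
        obtain ⟨hv, hvB⟩ := hv
        have hv' := hv
        simp only [sset, Finset.mem_filter, Finset.mem_univ, true_and] at hv'
        refine ⟨hv'.1, ?_⟩
        rw [tother]
        · exact hv'.2
        · intro e
          have : v = p := uq v p hv'.1 hup (by rw [e, hj])
          exact hp_notin (this ▸ hv)
        · intro e
          have : v = w := uq v w hv'.1 a3.1 (by rw [e, a3.2])
          exact hw_notin (this ▸ hv)
        · intro e
          apply hvB
          rw [hB, Finset.mem_filter]
          exact ⟨hv, e⟩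
    have c1 := Finset.card_le_card hsub
    rw [Finset.card_insert_of_notMem, Finset.card_insert_of_notMem] at c1
    · have c2 := Finset.le_card_sdiff B (sset G ι u (ι u))
      omega
    · intro hcon
      exact hw_notin (Finset.mem_sdiff.1 hcon).1
    · rw [Finset.mem_insert]
      rintro (e | hcon)
      · exact hpw e.symm
      · exact hp_notin (Finset.mem_sdiff.1 hcon).1

/-- Phase B: there is a good labelling without long cycles. -/
theorem exists_iota (G : SimpleGraph V) [DecidableRel G.Adj] (f : V → Option (Fin Δ))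
    (hf : ∀ u v, G.Adj u v → f u ≠ f v)
    (hX : ∀ u, f u ≠ none → ∃ x, G.Adj u x ∧ f x = none)
    (hrow : ∀ u, ∃ φ : V → Fin Δ, (∀ v w, G.Adj u v → G.Adj u w → φ v = φ w → v = w) ∧
        ∀ v, G.Adj u v → f v ≠ some (φ v)) :
    ∃ ι : V → V → Fin Δ, Good G f ι ∧ ∀ i, ¬ ∃ c : ℤ → V, LCyc G ι i c := by
  choose φ hφ using hrow
  obtain ⟨ι₀, h₀, hmax₀⟩ := Set.exists_max_image {ι : V → V → Fin Δ | Good G f ι} (Sy G)
    (Set.toFinite _) ⟨φ, hφ⟩
  obtain ⟨ι₁, h₁, hmin₁⟩ := Set.exists_min_image {ι : V → V → Fin Δ | IsMax G f ι}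
    (fun ι => (LS G ι).ncard) (Set.toFinite _) ⟨ι₀, h₀, hmax₀⟩
  refine ⟨ι₁, h₁.1, fun i ⟨c, hc⟩ => ?_⟩
  obtain ⟨ι', h', hlt⟩ := step hf hX h₁ hc
  have h2 := hmin₁ ι' h'
  have h3 := Set.ncard_lt_ncard hlt (Set.toFinite _)
  omega

end Pool.R300.TT
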