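import Mathlib

/-!
TT-C (MP_f0207f_co): 2-colouring a functional digraph without long cycles (by helper715).
-/

set_option autoImplicit false
set_option maxHeartbeats 400000

namespace Pool.R300.TT

open Classical in
/-- the total extension of the partial function with graph `R` -/
noncomputable def ext {V : Type*} (R : V → V → Prop) : V ⊕ Bool → V ⊕ Bool
  | Sum.inl u => if h : ∃ v, R u v then Sum.inl (Classical.choose h) else Sum.inr false
  | Sum.inr b => Sum.inr (!b)

theorem ext_of_rel {V : Type*} {R : V → V → Prop} (hfun : ∀ u v w, R u v → R u w → v = w)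
    {u v : V} (h : R u v) : ext R (Sum.inl u) = Sum.inl v := by
  have h1 : ∃ v, R u v := ⟨v, h⟩
  unfold ext
  simp only
  rw [dif_pos h1]
  congr 1
  exact hfun u _ _ (Classical.choose_spec h1) h

theorem rel_of_ext {V : Type*} {R : V → V → Prop} {u v : V}
    (h : ext R (Sum.inl u) = Sum.inl v) : R u v := by
  unfold ext at h
  simp only at h
  split_ifs at h with h1
  · have h2 := Classical.choose_spec h1
    rw [Sum.inl.inj h] at h2
    exact h2

theorem ext_ne {V : Type*} {R : V → V → Prop} (hirr : ∀ u, ¬ R u u) (x : V ⊕ Bool) :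
    ext R x ≠ x := by
  intro h
  rcases x with u | b
  · exact hirr u (rel_of_ext h)
  · have h1 : (Sum.inr (!b) : V ⊕ Bool) = Sum.inr b := h
    have h2 := Sum.inr.inj h1
    cases b <;> simp at h2

theorem ext_inr {V : Type*} {R : V → V → Prop} (b : Bool) (n : ℕ) :
    ∃ b', (ext R)^[n] (Sum.inr b) = Sum.inr b' := by
  induction n with
  | zero => exact ⟨b, rfl⟩
  | succ n ih =>
    obtain ⟨b', hb'⟩ := ih
    exact ⟨!b', by rw [Function.iterate_succ_apply', hb']; rfl⟩

theorem eventually_two {V : Type*} [Finite V] (R : V → V → Prop)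
    (hno : ¬ ∃ c : ℤ → V, (∀ n, R (c n) (c (n + 1))) ∧ ∀ n, c (n + 2) ≠ c n) (x : V ⊕ Bool) :
    ∃ n, (ext R)^[n + 2] x = (ext R)^[n] x := by
  set g := ext R with hg
  -- a repetition
  obtain ⟨n, m, hnm, heq⟩ : ∃ n m, n < m ∧ g^[n] x = g^[m] x := by
    obtain ⟨a, b, hab, h⟩ := Finite.exists_ne_map_eq_of_infinite (fun n : ℕ => g^[n] x)
    rcases lt_or_gt_of_ne hab with h1 | h1
    · exact ⟨a, b, h1, h⟩
    · exact ⟨b, a, h1, h.symm⟩
  obtain ⟨p, rfl⟩ : ∃ p, m = n + (p + 1) := ⟨m - n - 1, by omega⟩
  set y := g^[n] x with hy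
  have hper : g^[p + 1] y = y := by
    rw [hy, ← Function.iterate_add_apply, add_comm (p + 1) n]
    exact heq.symm
  have hmod : ∀ k : ℕ, g^[k % (p + 1)] y = g^[k] y := by
    intro k
    have hfix : ∀ j : ℕ, g^[(p + 1) * j] y = y := by
      intro j
      rw [Function.iterate_mul]
      exact Function.iterate_fixed hper j
    conv_rhs => rw [← Nat.mod_add_div k (p + 1), Function.iterate_add_apply, hfix]
  -- it is enough to find a 2-periodic point on the cycle
  have key : (∃ k, g^[k + 2] y = g^[k] y) → ∃ n, g^[n + 2] x = g^[n] x := by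
    rintro ⟨k, hk⟩
    refine ⟨k + n, ?_⟩
    have e1 : g^[k + n + 2] x = g^[k + 2] y := by
      rw [hy, ← Function.iterate_add_apply]
      congr 1
      omega
    have e2 : g^[k + n] x = g^[k] y := by
      rw [hy, ← Function.iterate_add_apply]
    rw [e1, e2, hk]
  by_cases hall : ∀ k, ∃ v : V, g^[k] y = Sum.inl v
  · choose c hc using hall
    by_contra hcon
    apply hno
    have hcper : ∀ k : ℕ, c (k % (p + 1)) = c k := by
      intro k
      have := hmod k
      rw [hc, hc] at this
      exact Sum.inl.inj this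
    have hR : ∀ k : ℕ, R (c k) (c (k + 1)) := by
      intro k
      apply rel_of_ext
      rw [← hc k, ← hc (k + 1), Function.iterate_succ_apply']
    have hadd : ∀ (z : ℤ) (j : ℕ), c ((z + j).emod (p + 1)).toNat =
        c ((z.emod (p + 1)).toNat + j) := by
      intro z j
      rw [← hcper ((z.emod (p + 1)).toNat + j)]
      congr 1
      have hpos : (0 : ℤ) < p + 1 := by omega
      have h1 : 0 ≤ z.emod (p + 1) := Int.emod_nonneg _ hpos.ne'
      have h2 : 0 ≤ (z + j).emod (p + 1) := Int.emod_nonneg _ hpos.ne'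
      have h3 : ((((z.emod (p + 1)).toNat + j) % (p + 1) : ℕ) : ℤ) = (z + j).emod (p + 1) := by
        push_cast
        rw [Int.toNat_of_nonneg h1]
        show (z % (p + 1) + j) % (p + 1) = (z + j) % (p + 1)
        rw [Int.emod_add_emod]
      rw [← h3]
      exact Int.toNat_natCast _
    refine ⟨fun z => c (z.emod (p + 1)).toNat, fun z => ?_, fun z h => ?_⟩
    · have h1 := hadd z 1
      simp only [Nat.cast_one] at h1
      show R (c (z.emod (p + 1)).toNat) (c ((z + 1).emod (p + 1)).toNat)
      rw [h1]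
      exact hR _
    · apply hcon
      apply key
      have h1 := hadd z 2
      simp only [Nat.cast_ofNat] at h1
      refine ⟨(z.emod (p + 1)).toNat, ?_⟩
      rw [hc, hc]
      congr 1
      rw [← h1]
      exact h
  · push Not at hall
    obtain ⟨k, hk⟩ := hall
    apply key
    refine ⟨k, ?_⟩
    rcases hw : g^[k] y with v | b
    · exact absurd hw (hk v)
    · rw [Function.iterate_succ_apply', Function.iterate_succ_apply', hw]
      show (Sum.inr (!!b) : V ⊕ Bool) = Sum.inr b
      rw [Bool.not_not]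

theorem exists_two_colouring {V : Type*} [Finite V] (R : V → V → Prop)
    (hirr : ∀ u, ¬ R u u) (hfun : ∀ u v w, R u v → R u w → v = w)
    (hno : ¬ ∃ c : ℤ → V, (∀ n, R (c n) (c (n + 1))) ∧ ∀ n, c (n + 2) ≠ c n) :
    ∃ b : V → Bool, ∀ u v, R u v → b u ≠ b v := by
  classical
  have := Fintype.ofFinite (V ⊕ Bool)
  set g := ext R with hg
  choose N hN using eventually_two R hno
  -- a uniform even exponent
  set M := ∑ x, N x with hM
  have hle : ∀ x, N x ≤ M := fun x => Finset.single_le_sum (fun _ _ => Nat.zero_le _)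
    (Finset.mem_univ x)
  have hper : ∀ x, g^[M + 2] x = g^[M] x := by
    intro x
    obtain ⟨j, hj⟩ := Nat.exists_eq_add_of_le (hle x)
    have e1 : M + 2 = j + (N x + 2) := by omega
    have e2 : M = j + N x := by omega
    rw [e1, Function.iterate_add_apply, hN x, ← Function.iterate_add_apply, ← e2]
  obtain ⟨n, ⟨ι⟩⟩ := Finite.exists_equiv_fin (V ⊕ Bool)
  refine ⟨fun v => decide ((ι (g^[M] (Sum.inl v))).val < (ι (g^[M + 1] (Sum.inl v))).val),
    fun u v h => ?_⟩
  have h1 : g (Sum.inl u) = Sum.inl v := ext_of_rel hfun h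
  have h2 : g^[M] (Sum.inl v) = g^[M + 1] (Sum.inl u) := by
    rw [Function.iterate_succ_apply, h1]
  have h3 : g^[M + 1] (Sum.inl v) = g^[M] (Sum.inl u) := by
    rw [← hper (Sum.inl u), Function.iterate_succ_apply _ (M + 1), h1]
  have hne : g^[M + 1] (Sum.inl u) ≠ g^[M] (Sum.inl u) := by
    rw [Function.iterate_succ_apply']
    exact ext_ne hirr _
  have hne' : (ι (g^[M + 1] (Sum.inl u))).val ≠ (ι (g^[M] (Sum.inl u))).val := by
    intro h
    exact hne (ι.injective (Fin.ext h))
  simp only [h2, h3]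
  intro h
  rw [decide_eq_decide] at h
  omega

end Pool.R300.TT
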