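import Pool.Agent.R300.TT.Defs
import Pool.Agent.R300.TT.PhaseA
import Pool.Agent.R300.TT.PhaseB
import Pool.Agent.R300.TT.PhaseC

/-!
# Phase D: assembling the colouring
-/

namespace Pool.R300.TT

open SimpleGraph

/-- Colours for the vertices and for the darts give a colouring of the cube of the
3-subdivision. -/
theorem colorable_of_data {V : Type*} (G : SimpleGraph V) {C : Type*} [Fintype C] (k : ℕ)
    (hC : Fintype.card C = k) (cv : V → C) (cd : V → V → C)
    (h1 : ∀ u v, G.Adj u v → cv u ≠ cv v) (h2 : ∀ u v, G.Adj u v → cd u v ≠ cv u)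
    (h3 : ∀ u v, G.Adj u v → cd u v ≠ cv v)
    (h4 : ∀ u v w, G.Adj u v → G.Adj u w → v ≠ w → cd u v ≠ cd u w)
    (h5 : ∀ u v w, G.Adj u v → G.Adj v w → cd u v ≠ cd v w) :
    (power (sub3 G) 3).Colorable k := by
  classical
  set c : V ⊕ G.Dart → C := fun a => match a with
    | Sum.inl v => cv v
    | Sum.inr d => cd d.fst d.snd with hc
  have cl : ∀ v, c (Sum.inl v) = cv v := fun v => rfl
  have cr : ∀ d : G.Dart, c (Sum.inr d) = cd d.fst d.snd := fun d => rfl
  have sf : ∀ d : G.Dart, d.symm.fst = d.snd := fun d => rfl
  have ss : ∀ d : G.Dart, d.symm.snd = d.fst := fun d => rfl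
  -- adjacency of the subdivision
  have all : ∀ v : V, ∀ w : V, ¬ (sub3 G).Adj (Sum.inl v) (Sum.inl w) := fun v w h => h
  have alr : ∀ (v : V) (d : G.Dart), (sub3 G).Adj (Sum.inl v) (Sum.inr d) → d.fst = v :=
    fun v d h => h
  have arl : ∀ (v : V) (d : G.Dart), (sub3 G).Adj (Sum.inr d) (Sum.inl v) → d.fst = v :=
    fun v d h => h
  have arr : ∀ (d e : G.Dart), (sub3 G).Adj (Sum.inr d) (Sum.inr e) → e = d.symm :=
    fun d e h => h
  have main : ∀ (a b : V ⊕ G.Dart) (p : (sub3 G).Walk a b), p.length ≤ 3 → a ≠ b →
      c a ≠ c b := by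
    intro a b p hp hab
    -- one step
    have one : ∀ a b, (sub3 G).Adj a b → c a ≠ c b := by
      rintro (v | d) (w | e) h
      · exact absurd h (all v w)
      · have := alr _ _ h; subst this
        rw [cl, cr]; exact (h2 _ _ e.adj).symm
      · have := arl _ _ h; subst this
        rw [cl, cr]; exact h2 _ _ d.adj
      · have := arr _ _ h; subst this
        rw [cr, cr]; exact h5 _ _ _ d.adj d.symm.adj
    have two : ∀ a m b, (sub3 G).Adj a m → (sub3 G).Adj m b → a ≠ b → c a ≠ c b := by
      rintro (v | d) (m | m) (w | e) ha hb hne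
      · exact absurd ha (all _ _)
      · exact absurd ha (all _ _)
      · have e1 := alr _ _ ha; have e2 := arl _ _ hb
        exact absurd (by rw [← e1, ← e2]) hne
      · have e1 := alr _ _ ha; have e2 := arr _ _ hb
        subst e1; subst e2
        rw [cl, cr]; exact (h3 _ _ m.symm.adj).symm
      · exact absurd hb (all _ _)
      · have e1 := arl _ _ ha; have e2 := alr _ _ hb
        rw [cr, cr, e1, e2]
        have hd := d.adj; have he := e.adj
        rw [e1] at hd; rw [e2] at he
        refine h4 _ _ _ hd he ?_
        intro h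
        apply hne
        congr 1
        apply SimpleGraph.Dart.ext
        exact Prod.ext (e1.trans e2.symm) h
      · have e1 := arr _ _ ha; have e2 := arl _ _ hb
        subst e1; subst e2
        rw [cl, cr]; exact h3 _ _ d.adj
      · have e1 := arr _ _ ha; have e2 := arr _ _ hb
        subst e1; subst e2
        exact absurd (by simp) hne
    have three : ∀ a m m' b, (sub3 G).Adj a m → (sub3 G).Adj m m' → (sub3 G).Adj m' b → a ≠ b →
        c a ≠ c b := by
      rintro (v | d) (m | m) (m' | m') (w | e) ha hm hb hne
      · exact absurd ha (all _ _)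
      · exact absurd ha (all _ _)
      · exact absurd ha (all _ _)
      · exact absurd ha (all _ _)
      · exact absurd hb (all _ _)
      · have e1 := alr _ _ ha; have e2 := arl _ _ hm; have e3 := alr _ _ hb
        rw [e1] at e2
        subst e2
        exact one _ _ hb
      · have e1 := alr _ _ ha; have e2 := arr _ _ hm; have e3 := arl _ _ hb
        subst e1; subst e2; subst e3
        rw [cl, cl]; exact h1 _ _ m.adj
      · have e1 := alr _ _ ha; have e2 := arr _ _ hm; have e3 := arr _ _ hb
        subst e1; subst e2; subst e3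
        rw [cl, cr]; simpa using (h2 _ _ m.adj).symm
      · exact absurd hm (all _ _)
      · exact absurd hm (all _ _)
      · have e1 := arl _ _ ha; have e2 := alr _ _ hm; have e3 := arl _ _ hb
        rw [e2] at e3; subst e3
        exact one _ _ ha
      · have e1 := arl _ _ ha; have e2 := alr _ _ hm; have e3 := arr _ _ hb
        subst e3
        rw [cr, cr]
        simp only [sf, ss]
        rw [e1, e2]
        have hd := d.adj; have he := m'.symm.adj
        simp only [sf, ss] at he
        rw [e1] at hd; rw [e2] at he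
        exact (h5 _ _ _ he hd).symm
      · exact absurd hb (all _ _)
      · have e1 := arr _ _ ha; have e2 := arl _ _ hm; have e3 := alr _ _ hb
        subst e1
        simp only [sf] at e2
        rw [cr, cr]
        have he := e.adj
        rw [e3, ← e2] at he
        rw [e3, ← e2]
        exact h5 _ _ _ d.adj he
      · have e1 := arr _ _ ha; have e2 := arr _ _ hm; have e3 := arl _ _ hb
        subst e1; subst e2; subst e3
        rw [cl, cr]; simpa using h2 _ _ d.adj
      · have e1 := arr _ _ ha; have e2 := arr _ _ hm; have e3 := arr _ _ hb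
        subst e1; subst e2; subst e3
        rw [cr, cr]; simpa using h5 _ _ _ d.adj d.symm.adj
    match p, hp with
    | .nil, _ => exact absurd rfl hab
    | .cons ha .nil, _ => exact one _ _ ha
    | .cons ha (.cons hb .nil), _ => exact two _ _ _ ha hb hab
    | .cons ha (.cons hb (.cons hc' .nil)), _ => exact three _ _ _ _ ha hb hc' hab
    | .cons _ (.cons _ (.cons _ (.cons _ p'))), hp =>
      simp only [SimpleGraph.Walk.length_cons] at hp
      omega
  have col : (power (sub3 G) 3).Coloring C := by
    refine SimpleGraph.Coloring.mk c ?_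
    intro a b hab
    obtain ⟨hne, hd⟩ := hab
    have hreach : (sub3 G).edist a b ≠ ⊤ := by
      intro h
      rw [h] at hd
      exact absurd hd (by simp)
    obtain ⟨p, hp⟩ := SimpleGraph.exists_walk_of_edist_ne_top hreach
    refine main a b p ?_ hne
    rw [← hp] at hd
    exact_mod_cast hd
  rw [← hC]
  exact col.colorable

/-- The case `Δ ≥ 3`. -/
theorem main3 {V : Type*} [Fintype V] (G : SimpleGraph V) [DecidableRel G.Adj]
    (Δ : ℕ) (h3 : 3 ≤ Δ) (hΔ : ∀ v, G.degree v ≤ Δ) :
    (power (sub3 G) 3).Colorable (2 * Δ + 1) := by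
  classical
  obtain ⟨f, hf, hX, hrow⟩ := exists_f G Δ h3 hΔ
  obtain ⟨ι, hgood, hno⟩ := exists_iota G f hf hX hrow
  have hb : ∀ i : Fin Δ, ∃ b : V → Bool, ∀ u v, Arc G ι i u v → b u ≠ b v := by
    intro i
    refine exists_two_colouring (Arc G ι i) (fun u h => G.loopless.irrefl u h.1) ?_ (hno i)
    intro u v w hv hw
    exact (hgood u).1 v w hv.1 hw.1 (by rw [hv.2, hw.2])
  choose b hb using hb
  refine colorable_of_data G (C := Option (Fin Δ × Bool)) (2 * Δ + 1) ?_
    (fun v => (f v).map (fun i => (i, !(b i v)))) (fun u v => some (ι u v, b (ι u v) u))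
    ?_ ?_ ?_ ?_ ?_
  · simp [Fintype.card_option]; ring
  · intro u v huv h
    apply hf u v huv
    cases hu : f u <;> cases hv : f v <;> simp_all
  · intro u v huv h
    cases hu : f u with
    | none => simp [hu] at h
    | some i =>
      simp only [hu, Option.map_some, Option.some.injEq, Prod.mk.injEq] at h
      obtain ⟨e1, e2⟩ := h
      subst e1
      cases hb' : b (ι u v) u <;> simp [hb'] at e2
  · intro u v huv h
    cases hv : f v with
    | none => simp [hv] at h
    | some i =>
      simp only [hv, Option.map_some, Option.some.injEq, Prod.mk.injEq] at h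
      obtain ⟨e1, _⟩ := h
      subst e1
      exact (hgood u).2 v huv hv
  · intro u v w huv huw hvw h
    simp only [Option.some.injEq, Prod.mk.injEq] at h
    exact hvw ((hgood u).1 v w huv huw h.1)
  · intro u v w huv hvw h
    simp only [Option.some.injEq, Prod.mk.injEq] at h
    obtain ⟨e1, e2⟩ := h
    have := hb (ι u v) u v ⟨huv, rfl⟩
    apply this
    rw [e2, ← e1]

end Pool.R300.TT
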