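import Mathlib

/-!
TT-E (MP_f0207f_co, owner helper300): the case `Δ = 2`, by helper325.
-/

set_option autoImplicit false

namespace Pool.R300.TT

namespace PhaseE

/-- the colour at position `r` of a cycle made of `a` blocks of length 4 and then blocks of
length 5 -/
def gc (a r : ℤ) : ℤ := if r < 4 * a then r % 4 else (r - 4 * a) % 5

theorem gc_bd (a r : ℤ) : 0 ≤ gc a r ∧ gc a r < 5 := by
  unfold gc
  split_ifs <;> omega

theorem gc_ne (a b m r r' d : ℤ) (ha : 0 ≤ a) (hb : 0 ≤ b) (hm : m = 4 * a + 5 * b)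
    (h0 : 0 ≤ r) (h1 : r < m) (hd1 : 1 ≤ d) (hd3 : d ≤ 3) (hr : r' = r + d ∨ r' = r + d - m)
    (h2 : 0 ≤ r') : gc a r ≠ gc a r' := by
  unfold gc
  split_ifs <;> omega

theorem exists_F (n : ℕ) (hn : 3 ≤ n) : ∃ F : ℤ → Fin 5, (∀ x, F (x + 3 * (n : ℤ)) = F x) ∧
    ∀ x, F x ≠ F (x + 1) ∧ F x ≠ F (x + 2) ∧ F x ≠ F (x + 3) := by
  obtain ⟨a, b, hab⟩ : ∃ a b : ℕ, 4 * a + 5 * b = 3 * n := by
    rcases Nat.lt_or_ge n 5 with h | h
    · interval_cases n
      · exact ⟨1, 1, rfl⟩
      · exact ⟨3, 0, rfl⟩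
    · exact ⟨(3 * n - 5 * ((3 * n) % 4)) / 4, (3 * n) % 4, by omega⟩
  have hm : (0 : ℤ) < 3 * (n : ℤ) := by omega
  have hbd : ∀ x : ℤ, (gc a (x % (3 * (n : ℤ)))).toNat < 5 := by
    intro x
    have := gc_bd a (x % (3 * (n : ℤ)))
    omega
  refine ⟨fun x => ⟨(gc a (x % (3 * (n : ℤ)))).toNat, hbd x⟩, ?_, ?_⟩
  · intro x
    simp only [Int.add_emod_right]
  · intro x
    have h0 := Int.emod_nonneg x hm.ne'
    have h1 := Int.emod_lt_of_pos x hm
    have key : ∀ d : ℤ, 1 ≤ d → d ≤ 3 → (⟨(gc a (x % (3 * (n : ℤ)))).toNat, hbd x⟩ : Fin 5) ≠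
        ⟨(gc a ((x + d) % (3 * (n : ℤ)))).toNat, hbd (x + d)⟩ := by
      intro d hd1 hd3 he
      have h4 : (x + d) % (3 * (n : ℤ)) = x % (3 * (n : ℤ)) + d ∨
          (x + d) % (3 * (n : ℤ)) = x % (3 * (n : ℤ)) + d - 3 * (n : ℤ) := by
        rw [← Int.emod_add_emod]
        rcases lt_or_ge (x % (3 * (n : ℤ)) + d) (3 * (n : ℤ)) with h | h
        · left
          exact Int.emod_eq_of_lt (by omega) h
        · right
          rw [← Int.sub_emod_right]
          exact Int.emod_eq_of_lt (by omega) (by omega)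
      have h5 := gc_ne a b (3 * n) (x % (3 * (n : ℤ))) ((x + d) % (3 * (n : ℤ))) d (by omega)
        (by omega) (by omega) h0 h1 hd1 hd3 h4 (Int.emod_nonneg _ hm.ne')
      apply h5
      have h6 := gc_bd a (x % (3 * (n : ℤ)))
      have h7 := gc_bd a ((x + d) % (3 * (n : ℤ)))
      have h8 : (gc a (x % (3 * (n : ℤ)))).toNat = (gc a ((x + d) % (3 * (n : ℤ)))).toNat :=
        congrArg Fin.val he
      omega
    exact ⟨key 1 (by norm_num) (by norm_num), key 2 (by norm_num) (by norm_num),
      key 3 (by norm_num) (by norm_num)⟩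

theorem exists_F4 : ∃ F : ℤ → Fin 5,
    ∀ x, F x ≠ F (x + 1) ∧ F x ≠ F (x + 2) ∧ F x ≠ F (x + 3) := by
  obtain ⟨F, _, h⟩ := exists_F 3 le_rfl
  exact ⟨F, h⟩

variable {V : Type*} [Fintype V] [DecidableEq V] (G : SimpleGraph V) [DecidableRel G.Adj]

theorem nb2 (hΔ : ∀ v, G.degree v ≤ 2) {x p q y : V} (hp : G.Adj x p) (hq : G.Adj x q)
    (hpq : p ≠ q) (hy : G.Adj x y) : y = p ∨ y = q := by
  by_contra h
  push Not at h
  have h1 : ({p, q, y} : Finset V) ⊆ G.neighborFinset x := by
    intro z hz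
    simp only [Finset.mem_insert, Finset.mem_singleton] at hz
    rw [SimpleGraph.mem_neighborFinset]
    rcases hz with rfl | rfl | rfl
    · exact hp
    · exact hq
    · exact hy
  have h2 : ({p, q, y} : Finset V).card = 3 := by
    rw [Finset.card_eq_three]
    exact ⟨p, q, y, hpq, h.1.symm, h.2.symm, rfl⟩
  have h3 := Finset.card_le_card h1
  rw [h2] at h3
  have h4 := hΔ x
  rw [← SimpleGraph.card_neighborFinset_eq_degree] at h4
  omega

/-- a path `f 0, ..., f k` in the component of `a0` -/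
def IsSeq (a0 : V) (k : ℕ) (f : ℕ → V) : Prop :=
  (∀ i j, i ≤ k → j ≤ k → f i = f j → i = j) ∧ (∀ i, i < k → G.Adj (f i) (f (i + 1))) ∧
    G.Reachable a0 (f 0)

omit [DecidableEq V] [DecidableRel G.Adj] in
theorem IsSeq.lt_card {a0 : V} {k : ℕ} {f : ℕ → V} (h : IsSeq G a0 k f) : k ≤ Fintype.card V := by
  have h1 : (Finset.range (k + 1)).card ≤ (Finset.univ : Finset V).card := by
    apply Finset.card_le_card_of_injOn f
    · intro i _
      exact Finset.mem_coe.2 (Finset.mem_univ _)
    · intro i hi j hj hij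
      have hi' := Finset.mem_range.1 (Finset.mem_coe.1 hi)
      have hj' := Finset.mem_range.1 (Finset.mem_coe.1 hj)
      exact h.1 i j (by omega) (by omega) hij
  rw [Finset.card_range, Finset.card_univ] at h1
  omega

omit [Fintype V] [DecidableEq V] [DecidableRel G.Adj] in
theorem IsSeq.reach {a0 : V} {k : ℕ} {f : ℕ → V} (h : IsSeq G a0 k f) (i : ℕ) (hi : i ≤ k) :
    G.Reachable a0 (f i) := by
  induction i with
  | zero => exact h.2.2
  | succ i ih => exact (ih (by omega)).trans (h.2.1 i (by omega)).reachable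

omit [DecidableEq V] [DecidableRel G.Adj] in
theorem exists_max (a0 : V) : ∃ (k : ℕ) (f : ℕ → V), IsSeq G a0 k f ∧
    ∀ f', ¬ IsSeq G a0 (k + 1) f' := by
  classical
  set P : ℕ → Prop := fun k => ∃ f, IsSeq G a0 k f with hP
  have h0 : P 0 := ⟨fun _ => a0, fun i j hi hj _ => by omega, fun i hi => by omega,
    SimpleGraph.Reachable.refl _⟩
  have h1 := Nat.findGreatest_spec (P := P) (Nat.zero_le (Fintype.card V)) h0
  obtain ⟨f, hf⟩ := h1
  refine ⟨_, f, hf, fun f' hf' => ?_⟩
  have h2 : P (Nat.findGreatest P (Fintype.card V) + 1) := ⟨f', hf'⟩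
  exact absurd h2 (Nat.findGreatest_is_greatest (Nat.lt_succ_self _) hf'.lt_card)

theorem closed (hΔ : ∀ v, G.degree v ≤ 2) {a0 : V} {k : ℕ} {f : ℕ → V} (h : IsSeq G a0 k f)
    (hmax : ∀ f', ¬ IsSeq G a0 (k + 1) f') (i : ℕ) (hi : i ≤ k) (y : V) (hy : G.Adj (f i) y) :
    ∃ j, j ≤ k ∧ f j = y := by
  by_contra hc
  push Not at hc
  rcases Nat.lt_or_ge i k with hik | hik
  · rcases Nat.eq_zero_or_pos i with h0 | h0
    · subst h0
      apply hmax (fun i => if i = 0 then y else f (i - 1))
      refine ⟨?_, ?_, ?_⟩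
      · intro i j hi hj hij
        by_cases h1 : i = 0 <;> by_cases h2 : j = 0
        · omega
        · simp only [h1, h2, if_true, if_false] at hij
          exact absurd hij.symm (hc _ (by omega))
        · simp only [h1, h2, if_true, if_false] at hij
          exact absurd hij (hc _ (by omega))
        · simp only [h1, h2, if_false] at hij
          have := h.1 _ _ (by omega) (by omega) hij
          omega
      · intro i hi
        by_cases h1 : i = 0
        · subst h1
          simpa using hy.symm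
        · have := h.2.1 (i - 1) (by omega)
          have e : i - 1 + 1 = i := by omega
          rw [e] at this
          simpa [h1] using this
      · simpa using h.2.2.trans hy.reachable
    · have a1 := h.2.1 i hik
      have a2 := h.2.1 (i - 1) (by omega)
      have e : i - 1 + 1 = i := by omega
      rw [e] at a2
      have hne : f (i - 1) ≠ f (i + 1) := by
        intro he
        have := h.1 _ _ (by omega) (by omega) he
        omega
      rcases nb2 G hΔ a2.symm a1 hne hy with h1 | h1
      · exact hc (i - 1) (by omega) h1.symm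
      · exact hc (i + 1) (by omega) h1.symm
  · have hik' : i = k := by omega
    subst hik'
    apply hmax (fun j => if j ≤ i then f j else y)
    refine ⟨?_, ?_, ?_⟩
    · intro a b ha hb hab
      by_cases h1 : a ≤ i <;> by_cases h2 : b ≤ i
      · simp only [h1, h2, if_true] at hab
        exact h.1 _ _ h1 h2 hab
      · simp only [h1, h2, if_true, if_false] at hab
        exact absurd hab (hc _ h1)
      · simp only [h1, h2, if_true, if_false] at hab
        exact absurd hab.symm (hc _ h2)
      · omega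
    · intro j hj
      by_cases h1 : j = i
      · subst h1
        simpa using hy
      · have h2 : j ≤ i := by omega
        have h3 : j + 1 ≤ i := by omega
        simpa [h2, h3] using h.2.1 j (by omega)
    · simpa using h.2.2

theorem struct (hΔ : ∀ v, G.degree v ≤ 2) {a0 : V} {k : ℕ} {f : ℕ → V} (h : IsSeq G a0 k f)
    (i j : ℕ) (hij : i < j) (hj : j ≤ k) (hadj : G.Adj (f i) (f j)) :
    j = i + 1 ∨ (i = 0 ∧ j = k) := by
  have key : ∀ l m : ℕ, 0 < l → l < k → m ≤ k → G.Adj (f l) (f m) → m = l + 1 ∨ m + 1 = l := by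
    intro l m hl0 hlk hm hlm
    have a1 := h.2.1 l hlk
    have a2 := h.2.1 (l - 1) (by omega)
    have e : l - 1 + 1 = l := by omega
    rw [e] at a2
    have hne : f (l - 1) ≠ f (l + 1) := by
      intro he
      have := h.1 _ _ (by omega) (by omega) he
      omega
    rcases nb2 G hΔ a2.symm a1 hne hlm with h1 | h1
    · have := h.1 _ _ hm (by omega) h1
      omega
    · have := h.1 _ _ hm (by omega) h1
      omega
  rcases Nat.eq_zero_or_pos i with h0 | h0
  · rcases Nat.lt_or_ge j k with h1 | h1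
    · have := key j i (by omega) h1 (by omega) hadj.symm
      omega
    · right; omega
  · have := key i j h0 (by omega) hj hadj
    omega

/-- the constraints at the vertices `u` with `S u` -/
def Good (S : V → Prop) (cv : V → Fin 5) (cd : V → V → Fin 5) : Prop :=
  (∀ u v, S u → G.Adj u v → cv u ≠ cv v) ∧ (∀ u v, S u → G.Adj u v → cd u v ≠ cv u) ∧
  (∀ u v, S u → G.Adj u v → cd u v ≠ cv v) ∧
  (∀ u v w, S u → G.Adj u v → G.Adj u w → v ≠ w → cd u v ≠ cd u w) ∧
  (∀ u v w, S u → G.Adj u v → G.Adj v w → cd u v ≠ cd v w)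

theorem comp_case (hΔ : ∀ v, G.degree v ≤ 2) (a0 : V) : ∃ (cv : V → Fin 5) (cd : V → V → Fin 5),
    Good G (fun u => G.Reachable a0 u) cv cd := by
  classical
  obtain ⟨k, f, hf, hmax⟩ := exists_max G a0
  -- all reachable vertices are on the path
  have hcl : ∀ x y, (∃ i, i ≤ k ∧ f i = x) → G.Adj x y → ∃ j, j ≤ k ∧ f j = y := by
    rintro x y ⟨i, hi, rfl⟩ hy
    exact closed G hΔ hf hmax i hi y hy
  have hwalk : ∀ x y, G.Reachable x y → (∃ i, i ≤ k ∧ f i = x) → ∃ j, j ≤ k ∧ f j = y := by
    intro x y hxy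
    obtain ⟨w⟩ := hxy
    induction w with
    | nil => exact fun h => h
    | cons hadj _ ih => exact fun h => ih (hcl _ _ h hadj)
  have hex : ∀ v, G.Reachable a0 v → ∃ i, i ≤ k ∧ f i = v := by
    intro v hv
    exact hwalk (f 0) v (hf.2.2.symm.trans hv) ⟨0, Nat.zero_le _, rfl⟩
  set idx : V → ℕ := fun v => if h : ∃ i, i ≤ k ∧ f i = v then h.choose else 0 with hidx
  have hidx1 : ∀ v, G.Reachable a0 v → idx v ≤ k ∧ f (idx v) = v := by
    intro v hv
    have h := hex v hv
    simp only [hidx, dif_pos h]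
    exact h.choose_spec
  -- the colouring of positions
  obtain ⟨F, hF, hper⟩ : ∃ F : ℤ → Fin 5, (∀ x, F x ≠ F (x + 1) ∧ F x ≠ F (x + 2) ∧
      F x ≠ F (x + 3)) ∧ ((2 ≤ k ∧ G.Adj (f k) (f 0)) → ∀ x, F (x + 3 * ((k : ℤ) + 1)) = F x) := by
    by_cases h : 2 ≤ k ∧ G.Adj (f k) (f 0)
    · obtain ⟨F, h1, h2⟩ := exists_F (k + 1) (by omega)
      refine ⟨F, h2, fun _ x => ?_⟩
      have := h1 x
      push_cast at this
      exact this
    · obtain ⟨F, h1⟩ := exists_F4
      exact ⟨F, h1, fun h' => absurd h' h⟩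
  set fwd : V → V → Prop := fun u v => idx v = idx u + 1 ∨ (idx u = k ∧ idx v = 0 ∧ 2 ≤ k) with hfwd
  have hR : ∀ u v, G.Reachable a0 u → G.Adj u v → G.Reachable a0 v :=
    fun u v hu huv => hu.trans huv.reachable
  have hor : ∀ u v, G.Reachable a0 u → G.Adj u v → fwd u v ∨ fwd v u := by
    intro u v hu huv
    obtain ⟨i1, i2⟩ := hidx1 u hu
    obtain ⟨j1, j2⟩ := hidx1 v (hR u v hu huv)
    have hne : idx u ≠ idx v := by
      intro he
      rw [he, j2] at i2
      exact huv.ne i2.symm
    have hadj : G.Adj (f (idx u)) (f (idx v)) := by rw [i2, j2]; exact huv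
    show (_ ∨ _) ∨ (_ ∨ _)
    rcases Nat.lt_or_ge (idx u) (idx v) with h | h
    · have := struct G hΔ hf _ _ h j1 hadj
      omega
    · have := struct G hΔ hf _ _ (lt_of_le_of_ne h hne.symm) i1 hadj.symm
      omega
  have hshift : ∀ u v, G.Reachable a0 u → G.Adj u v → fwd u v →
      ∀ t, F (3 * (idx v : ℤ) + t) = F (3 * (idx u : ℤ) + 3 + t) := by
    intro u v hu huv h t
    obtain ⟨i1, i2⟩ := hidx1 u hu
    obtain ⟨j1, j2⟩ := hidx1 v (hR u v hu huv)
    rcases h with h | ⟨h1, h2, h3⟩
    · have e : 3 * (idx v : ℤ) + t = 3 * (idx u : ℤ) + 3 + t := by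
        rw [h]; push_cast; ring
      rw [e]
    · rw [h1] at i2
      rw [h2] at j2
      have hadj : G.Adj (f k) (f 0) := by rw [i2, j2]; exact huv
      have := hper ⟨h3, hadj⟩ (3 * ((0 : ℕ) : ℤ) + t)
      rw [h1, h2, ← this]
      congr 1
      push_cast
      ring
  have hnot : ∀ u v, G.Reachable a0 u → G.Adj u v → fwd u v → ¬ fwd v u := by
    intro u v hu huv h h'
    have h1 : idx v = idx u + 1 ∨ (idx u = k ∧ idx v = 0 ∧ 2 ≤ k) := h
    have h2 : idx u = idx v + 1 ∨ (idx v = k ∧ idx u = 0 ∧ 2 ≤ k) := h'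
    omega
  have huniq : ∀ v w, G.Reachable a0 v → G.Reachable a0 w → idx v = idx w → v = w := by
    intro v w hv hw h
    rw [← (hidx1 v hv).2, ← (hidx1 w hw).2, h]
  have hF1 : ∀ x y, y = x + 1 ∨ y = x + 2 ∨ y = x + 3 → F x ≠ F y := by
    rintro x y (rfl | rfl | rfl)
    · exact (hF x).1
    · exact (hF x).2.1
    · exact (hF x).2.2
  refine ⟨fun v => F (3 * (idx v : ℤ)),
    fun u v => if fwd u v then F (3 * (idx u : ℤ) + 1) else F (3 * (idx u : ℤ) - 1), ?_⟩
  -- shift in the backward direction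
  have hback : ∀ u v, G.Reachable a0 u → G.Adj u v → ¬ fwd u v →
      ∀ t, F (3 * (idx v : ℤ) + t) = F (3 * (idx u : ℤ) - 3 + t) := by
    intro u v hu huv h t
    have h1 : fwd v u := (hor u v hu huv).resolve_left h
    have h2 := hshift v u (hR u v hu huv) huv.symm h1 (t - 3)
    have e1 : 3 * (idx u : ℤ) - 3 + t = 3 * (idx u : ℤ) + (t - 3) := by ring
    have e2 : 3 * (idx v : ℤ) + t = 3 * (idx v : ℤ) + 3 + (t - 3) := by ring
    rw [e1, e2, h2]
  refine ⟨?_, ?_, ?_, ?_, ?_⟩
  · intro u v hu huv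
    show F (3 * (idx u : ℤ)) ≠ F (3 * (idx v : ℤ))
    by_cases h : fwd u v
    · have := hshift u v hu huv h 0
      simp only [add_zero] at this
      rw [this]
      exact hF1 _ _ (by omega)
    · have := hback u v hu huv h 0
      simp only [add_zero] at this
      rw [this]
      exact (hF1 _ _ (by omega)).symm
  · intro u v hu huv
    by_cases h : fwd u v
    · simp only [if_pos h]
      exact (hF1 _ _ (by omega)).symm
    · simp only [if_neg h]
      exact hF1 _ _ (by omega)
  · intro u v hu huv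
    by_cases h : fwd u v
    · simp only [if_pos h]
      have := hshift u v hu huv h 0
      simp only [add_zero] at this
      rw [this]
      exact hF1 _ _ (by omega)
    · simp only [if_neg h]
      have := hback u v hu huv h 0
      simp only [add_zero] at this
      rw [this]
      exact (hF1 _ _ (by omega)).symm
  · intro u v w hu huv huw hvw
    have hv := hR u v hu huv
    have hw := hR u w hu huw
    by_cases h : fwd u v
    · by_cases h' : fwd u w
      · exfalso
        apply hvw
        apply huniq v w hv hw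
        have h1 : idx v = idx u + 1 ∨ (idx u = k ∧ idx v = 0 ∧ 2 ≤ k) := h
        have h2 : idx w = idx u + 1 ∨ (idx u = k ∧ idx w = 0 ∧ 2 ≤ k) := h'
        have := (hidx1 v hv).1
        have := (hidx1 w hw).1
        omega
      · simp only [if_pos h, if_neg h']
        exact (hF1 _ _ (by omega)).symm
    · by_cases h' : fwd u w
      · simp only [if_neg h, if_pos h']
        exact hF1 _ _ (by omega)
      · exfalso
        apply hvw
        apply huniq v w hv hw
        have h1 : idx u = idx v + 1 ∨ (idx v = k ∧ idx u = 0 ∧ 2 ≤ k) :=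
          (hor u v hu huv).resolve_left h
        have h2 : idx u = idx w + 1 ∨ (idx w = k ∧ idx u = 0 ∧ 2 ≤ k) :=
          (hor u w hu huw).resolve_left h'
        have := (hidx1 u hu).1
        omega
  · intro u v w hu huv hvw
    have hv := hR u v hu huv
    by_cases h : fwd u v
    · have hs := hshift u v hu huv h
      by_cases h' : fwd v w
      · simp only [if_pos h, if_pos h']
        rw [hs 1]
        exact hF1 _ _ (by omega)
      · simp only [if_pos h, if_neg h']
        rw [sub_eq_add_neg, hs (-1)]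
        exact hF1 _ _ (by omega)
    · have hs := hback u v hu huv h
      by_cases h' : fwd v w
      · simp only [if_neg h, if_pos h']
        rw [hs 1]
        exact (hF1 _ _ (by omega)).symm
      · simp only [if_neg h, if_neg h']
        rw [sub_eq_add_neg (3 * (idx v : ℤ)) 1, hs (-1)]
        exact (hF1 _ _ (by omega)).symm

end PhaseE

open PhaseE in
/-- the cube of the 3-subdivision of a union of paths and cycles is 5-colourable -/
theorem two_case {V : Type*} [Fintype V] [DecidableEq V] (G : SimpleGraph V) [DecidableRel G.Adj]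
    (hΔ : ∀ v, G.degree v ≤ 2) :
    ∃ (cv : V → Fin 5) (cd : V → V → Fin 5),
      (∀ u v, G.Adj u v → cv u ≠ cv v) ∧ (∀ u v, G.Adj u v → cd u v ≠ cv u) ∧
      (∀ u v, G.Adj u v → cd u v ≠ cv v) ∧
      (∀ u v w, G.Adj u v → G.Adj u w → v ≠ w → cd u v ≠ cd u w) ∧
      (∀ u v w, G.Adj u v → G.Adj v w → cd u v ≠ cd v w) := by
  classical
  have h := fun c : G.ConnectedComponent => comp_case G hΔ c.out
  choose cv cd hg using h
  have hre : ∀ u : V, G.Reachable (G.connectedComponentMk u).out u := by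
    intro u
    rw [← SimpleGraph.ConnectedComponent.eq]
    exact Quot.out_eq _
  have hc : ∀ u v, G.Adj u v → G.connectedComponentMk u = G.connectedComponentMk v := by
    intro u v huv
    exact SimpleGraph.ConnectedComponent.sound huv.reachable
  refine ⟨fun u => cv (G.connectedComponentMk u) u, fun u v => cd (G.connectedComponentMk u) u v,
    ?_, ?_, ?_, ?_, ?_⟩
  · intro u v huv
    simp only [← hc u v huv]
    exact (hg _).1 u v (hre u) huv
  · intro u v huv
    exact (hg _).2.1 u v (hre u) huv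
  · intro u v huv
    simp only [← hc u v huv]
    exact (hg _).2.2.1 u v (hre u) huv
  · intro u v w huv huw hvw
    exact (hg _).2.2.2.1 u v w (hre u) huv huw hvw
  · intro u v w huv hvw
    simp only [← hc u v huv]
    exact (hg _).2.2.2.2 u v w (hre u) huv hvw

end Pool.R300.TT
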